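import Mathlib

namespace Pool.Agent.Results.MP_16f3b0_al.TwoGenSimple

/-- Vector fields `f ∂x + g ∂y` over `F2[x,y]/(x^2,y^2)`; the fields `a0 a1 a2 a3` are the
coefficients of `f` at `1, x, y, xy`, the fields `b0 b1 b2 b3` those of `g`. -/
@[ext] structure W : Type where
  a0 : ZMod 2
  a1 : ZMod 2
  a2 : ZMod 2
  a3 : ZMod 2
  b0 : ZMod 2
  b1 : ZMod 2
  b2 : ZMod 2
  b3 : ZMod 2

namespace W

instance : Zero W := ⟨⟨0, 0, 0, 0, 0, 0, 0, 0⟩⟩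
instance : Add W := ⟨fun u v => ⟨u.a0 + v.a0, u.a1 + v.a1, u.a2 + v.a2, u.a3 + v.a3,
  u.b0 + v.b0, u.b1 + v.b1, u.b2 + v.b2, u.b3 + v.b3⟩⟩
instance : Neg W := ⟨fun u => ⟨-u.a0, -u.a1, -u.a2, -u.a3, -u.b0, -u.b1, -u.b2, -u.b3⟩⟩

/-- Product of vector fields `(f ∂i) * (g ∂j) = g (∂j f) ∂i`. -/
instance : Mul W := ⟨fun u v =>
  ⟨v.a0 * u.a1 + v.b0 * u.a2,
   v.a1 * u.a1 + v.b1 * u.a2 + v.b0 * u.a3,
   v.a2 * u.a1 + v.a0 * u.a3 + v.b2 * u.a2,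
   v.a3 * u.a1 + v.a1 * u.a3 + v.b3 * u.a2 + v.b2 * u.a3,
   v.a0 * u.b1 + v.b0 * u.b2,
   v.a1 * u.b1 + v.b1 * u.b2 + v.b0 * u.b3,
   v.a2 * u.b1 + v.a0 * u.b3 + v.b2 * u.b2,
   v.a3 * u.b1 + v.a1 * u.b3 + v.b3 * u.b2 + v.b2 * u.b3⟩⟩

theorem zero_def : (0 : W) = ⟨0, 0, 0, 0, 0, 0, 0, 0⟩ := rfl
theorem add_def (u v : W) : u + v = ⟨u.a0 + v.a0, u.a1 + v.a1, u.a2 + v.a2, u.a3 + v.a3,
  u.b0 + v.b0, u.b1 + v.b1, u.b2 + v.b2, u.b3 + v.b3⟩ := rfl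
theorem neg_def (u : W) : -u = ⟨-u.a0, -u.a1, -u.a2, -u.a3, -u.b0, -u.b1, -u.b2, -u.b3⟩ := rfl
theorem mul_def (u v : W) : u * v =
  ⟨v.a0 * u.a1 + v.b0 * u.a2,
   v.a1 * u.a1 + v.b1 * u.a2 + v.b0 * u.a3,
   v.a2 * u.a1 + v.a0 * u.a3 + v.b2 * u.a2,
   v.a3 * u.a1 + v.a1 * u.a3 + v.b3 * u.a2 + v.b2 * u.a3,
   v.a0 * u.b1 + v.b0 * u.b2,
   v.a1 * u.b1 + v.b1 * u.b2 + v.b0 * u.b3,
   v.a2 * u.b1 + v.a0 * u.b3 + v.b2 * u.b2,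
   v.a3 * u.b1 + v.a1 * u.b3 + v.b3 * u.b2 + v.b2 * u.b3⟩ := rfl

instance : NonUnitalNonAssocRing W where
  add_assoc u v w := by simp [add_def, add_assoc]
  zero_add u := by simp [add_def, zero_def]
  add_zero u := by simp [add_def, zero_def]
  add_comm u v := by ext <;> simp [add_def, add_comm]
  neg_add_cancel u := by ext <;> exact neg_add_cancel _
  nsmul := nsmulRec
  zsmul := zsmulRec
  left_distrib u v w := by ext <;> simp only [add_def, mul_def] <;> ring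
  right_distrib u v w := by ext <;> simp only [add_def, mul_def] <;> ring
  zero_mul u := by ext <;> simp [mul_def, zero_def]
  mul_zero u := by ext <;> simp [mul_def, zero_def]

theorem right_alt (u v : W) : (u * v) * v = u * (v * v) := by
  ext <;> simp only [mul_def] <;> ring_nf <;> reduce_mod_char

theorem all_of_basis (P : W → Prop) (h0 : P 0) (hadd : ∀ u v, P u → P v → P (u + v))
    (e0 : P ⟨1, 0, 0, 0, 0, 0, 0, 0⟩) (e1 : P ⟨0, 1, 0, 0, 0, 0, 0, 0⟩)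
    (e2 : P ⟨0, 0, 1, 0, 0, 0, 0, 0⟩) (e3 : P ⟨0, 0, 0, 1, 0, 0, 0, 0⟩)
    (f0 : P ⟨0, 0, 0, 0, 1, 0, 0, 0⟩) (f1 : P ⟨0, 0, 0, 0, 0, 1, 0, 0⟩)
    (f2 : P ⟨0, 0, 0, 0, 0, 0, 1, 0⟩) (f3 : P ⟨0, 0, 0, 0, 0, 0, 0, 1⟩) (w : W) : P w := by
  obtain ⟨a0, a1, a2, a3, b0, b1, b2, b3⟩ := w
  have g0 : P ⟨a0, 0, 0, 0, 0, 0, 0, 0⟩ := by fin_cases a0 <;> assumption
  have g1 : P ⟨0, a1, 0, 0, 0, 0, 0, 0⟩ := by fin_cases a1 <;> assumption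
  have g2 : P ⟨0, 0, a2, 0, 0, 0, 0, 0⟩ := by fin_cases a2 <;> assumption
  have g3 : P ⟨0, 0, 0, a3, 0, 0, 0, 0⟩ := by fin_cases a3 <;> assumption
  have k0 : P ⟨0, 0, 0, 0, b0, 0, 0, 0⟩ := by fin_cases b0 <;> assumption
  have k1 : P ⟨0, 0, 0, 0, 0, b1, 0, 0⟩ := by fin_cases b1 <;> assumption
  have k2 : P ⟨0, 0, 0, 0, 0, 0, b2, 0⟩ := by fin_cases b2 <;> assumption
  have k3 : P ⟨0, 0, 0, 0, 0, 0, 0, b3⟩ := by fin_cases b3 <;> assumption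
  have := hadd _ _ g0 (hadd _ _ g1 (hadd _ _ g2 (hadd _ _ g3 (hadd _ _ k0
    (hadd _ _ k1 (hadd _ _ k2 k3))))))
  simpa [add_def] using this

/-- The ring is simple: a nonzero two-sided ideal is everything. -/
theorem ideal_eq_top (I : TwoSidedIdeal W) (u : W) (hu : u ∈ I) (hne : u ≠ 0) : I = ⊤ := by
  -- a nonzero constant vector field lies in `I`
  have step1 : ∃ p q : ZMod 2, (p ≠ 0 ∨ q ≠ 0) ∧ (⟨p, 0, 0, 0, q, 0, 0, 0⟩ : W) ∈ I := by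
    have hdx := I.mul_mem_right u ⟨1, 0, 0, 0, 0, 0, 0, 0⟩ hu
    have hdy := I.mul_mem_right u ⟨0, 0, 0, 0, 1, 0, 0, 0⟩ hu
    have hdxy := I.mul_mem_right _ ⟨0, 0, 0, 0, 1, 0, 0, 0⟩ hdx
    obtain ⟨a0, a1, a2, a3, b0, b1, b2, b3⟩ := u
    simp [mul_def] at hdx hdy hdxy
    by_cases h3 : a3 ≠ 0 ∨ b3 ≠ 0
    · exact ⟨a3, b3, h3, hdxy⟩
    · push Not at h3
      obtain ⟨rfl, rfl⟩ := h3
      by_cases h1 : a1 ≠ 0 ∨ b1 ≠ 0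
      · exact ⟨a1, b1, h1, hdx⟩
      · push Not at h1
        obtain ⟨rfl, rfl⟩ := h1
        by_cases h2 : a2 ≠ 0 ∨ b2 ≠ 0
        · exact ⟨a2, b2, h2, hdy⟩
        · push Not at h2
          obtain ⟨rfl, rfl⟩ := h2
          refine ⟨a0, b0, ?_, hu⟩
          by_contra h0
          push Not at h0
          obtain ⟨rfl, rfl⟩ := h0
          exact hne rfl
  -- hence both coordinate fields lie in `I`
  have step2 : (⟨1, 0, 0, 0, 0, 0, 0, 0⟩ : W) ∈ I ∧ (⟨0, 0, 0, 0, 1, 0, 0, 0⟩ : W) ∈ I := by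
    obtain ⟨p, q, hpq, hc⟩ := step1
    have key : ∀ t : ZMod 2, t ≠ 0 → t = 1 := by decide
    rcases hpq with hp | hq
    · have hp1 : p = 1 := key p hp
      subst hp1
      have h1 := I.mul_mem_left ⟨0, 1, 0, 0, 0, 0, 0, 0⟩ _ hc
      have h2 := I.mul_mem_left ⟨0, 0, 0, 0, 0, 1, 0, 0⟩ _ hc
      simp [mul_def] at h1 h2
      exact ⟨h1, h2⟩
    · have hq1 : q = 1 := key q hq
      subst hq1
      have h1 := I.mul_mem_left ⟨0, 0, 1, 0, 0, 0, 0, 0⟩ _ hc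
      have h2 := I.mul_mem_left ⟨0, 0, 0, 0, 0, 0, 1, 0⟩ _ hc
      simp [mul_def] at h1 h2
      exact ⟨h1, h2⟩
  obtain ⟨hdx, hdy⟩ := step2
  have ex := I.mul_mem_left ⟨0, 0, 0, 1, 0, 0, 0, 0⟩ _ hdy
  have ey := I.mul_mem_left ⟨0, 0, 0, 1, 0, 0, 0, 0⟩ _ hdx
  have fx := I.mul_mem_left ⟨0, 0, 0, 0, 0, 0, 0, 1⟩ _ hdy
  have fy := I.mul_mem_left ⟨0, 0, 0, 0, 0, 0, 0, 1⟩ _ hdx
  simp [mul_def] at ex ey fx fy
  have exy := I.mul_mem_right _ ⟨0, 0, 0, 1, 0, 0, 0, 0⟩ ex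
  have fxy := I.mul_mem_right _ ⟨0, 0, 0, 1, 0, 0, 0, 0⟩ fx
  simp [mul_def] at exy fxy
  rw [eq_top_iff]
  intro w _
  exact all_of_basis (fun w => w ∈ I) I.zero_mem (fun _ _ h h' => I.add_mem h h')
    hdx ex ey exy hdy fx fy fxy w

theorem closure_eq_top : NonUnitalSubring.closure
    ({⟨1, 0, 0, 0, 0, 0, 0, 0⟩, ⟨0, 0, 0, 1, 0, 1, 0, 0⟩} : Set W) = ⊤ := by
  set S := NonUnitalSubring.closure
    ({⟨1, 0, 0, 0, 0, 0, 0, 0⟩, ⟨0, 0, 0, 1, 0, 1, 0, 0⟩} : Set W) with hS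
  have g1 : (⟨1, 0, 0, 0, 0, 0, 0, 0⟩ : W) ∈ S := NonUnitalSubring.subset_closure (by simp)
  have g2 : (⟨0, 0, 0, 1, 0, 1, 0, 0⟩ : W) ∈ S := NonUnitalSubring.subset_closure (by simp)
  have g3 : (⟨0, 0, 1, 0, 1, 0, 0, 0⟩ : W) ∈ S := by
    simpa [mul_def] using S.mul_mem g2 g1
  have f3 : (⟨0, 0, 0, 0, 0, 0, 0, 1⟩ : W) ∈ S := by
    simpa [mul_def] using S.mul_mem g2 g2
  have g5 : (⟨0, 1, 0, 0, 0, 0, 1, 0⟩ : W) ∈ S := by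
    simpa [mul_def] using S.mul_mem g2 g3
  have e1 : (⟨0, 1, 0, 0, 0, 0, 0, 0⟩ : W) ∈ S := by
    simpa [mul_def] using S.mul_mem g3 g2
  have e3 : (⟨0, 0, 0, 1, 0, 0, 0, 0⟩ : W) ∈ S := by
    simpa [mul_def] using S.mul_mem g3 f3
  have e2 : (⟨0, 0, 1, 0, 0, 0, 0, 0⟩ : W) ∈ S := by
    simpa [mul_def] using S.mul_mem g3 g5
  have f2 : (⟨0, 0, 0, 0, 0, 0, 1, 0⟩ : W) ∈ S := by
    have := S.add_mem g5 e1
    rwa [show (⟨0, 1, 0, 0, 0, 0, 1, 0⟩ : W) + ⟨0, 1, 0, 0, 0, 0, 0, 0⟩ =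
      ⟨0, 0, 0, 0, 0, 0, 1, 0⟩ from by ext <;> decide] at this
  have f0 : (⟨0, 0, 0, 0, 1, 0, 0, 0⟩ : W) ∈ S := by
    have := S.add_mem g3 e2
    rwa [show (⟨0, 0, 1, 0, 1, 0, 0, 0⟩ : W) + ⟨0, 0, 1, 0, 0, 0, 0, 0⟩ =
      ⟨0, 0, 0, 0, 1, 0, 0, 0⟩ from by ext <;> decide] at this
  have f1 : (⟨0, 0, 0, 0, 0, 1, 0, 0⟩ : W) ∈ S := by
    have := S.add_mem g2 e3
    rwa [show (⟨0, 0, 0, 1, 0, 1, 0, 0⟩ : W) + ⟨0, 0, 0, 1, 0, 0, 0, 0⟩ =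
      ⟨0, 0, 0, 0, 0, 1, 0, 0⟩ from by ext <;> decide] at this
  rw [eq_top_iff]
  intro w _
  exact all_of_basis (fun w => w ∈ S) S.zero_mem (fun _ _ h h' => S.add_mem h h')
    g1 e1 e2 e3 f0 f1 f2 f3 w

end W

/-- There is a right alternative ring generated by two elements that has no finite chain of
two-sided ideals from zero to the whole ring all of whose quotients are associative. -/
theorem result : ∃ (A : Type) (_ : NonUnitalNonAssocRing A),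
    (∀ x y : A, (x * y) * y = x * (y * y)) ∧
    (∃ a b : A, NonUnitalSubring.closure {a, b} = ⊤) ∧
    ¬ ∃ (n : ℕ) (I : ℕ → TwoSidedIdeal A), I 0 = ⊥ ∧ I n = ⊤ ∧
      (∀ k < n, I k ≤ I (k + 1)) ∧
      (∀ k < n, ∀ x ∈ I (k + 1), ∀ y ∈ I (k + 1), ∀ z ∈ I (k + 1),
        (x * y) * z - x * (y * z) ∈ I k) := by
  refine ⟨W, inferInstance, W.right_alt, ⟨_, _, W.closure_eq_top⟩, ?_⟩
  rintro ⟨n, I, h0, hn, hle, hassoc⟩
  have hbot : ∀ k, k ≤ n → I k = ⊥ := by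
    intro k
    induction k with
    | zero => intro _; exact h0
    | succ k ih =>
      intro hk
      have hk' : k < n := hk
      have ihk := ih hk'.le
      by_contra hne
      have htop : I (k + 1) = ⊤ := by
        by_contra hnt
        apply hne
        rw [eq_bot_iff]
        intro u hu
        by_contra hu0
        apply hnt
        refine W.ideal_eq_top _ u hu ?_
        intro h
        apply hu0
        rw [h]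
        exact TwoSidedIdeal.zero_mem _
      have hx := hassoc k hk' ⟨0, 0, 0, 1, 0, 0, 0, 0⟩ (by rw [htop]; trivial)
        ⟨1, 0, 0, 0, 0, 0, 0, 0⟩ (by rw [htop]; trivial)
        ⟨0, 0, 0, 0, 1, 0, 0, 0⟩ (by rw [htop]; trivial)
      rw [ihk] at hx
      have hx' := (TwoSidedIdeal.mem_bot W).mp hx
      rw [sub_eq_zero] at hx'
      simp [W.mul_def] at hx'
  have h1 := hbot n le_rfl
  rw [h1] at hn
  have h2 : (⟨1, 0, 0, 0, 0, 0, 0, 0⟩ : W) ∈ (⊥ : TwoSidedIdeal W) := by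
    rw [hn]; trivial
  have h3 := (TwoSidedIdeal.mem_bot W).mp h2
  simp [W.zero_def] at h3

end Pool.Agent.Results.MP_16f3b0_al.TwoGenSimple
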